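import Pool.Agent.H751R2.GN.Stubs
import Pool.Agent.H751R2.GN.Stubs2

/-! LIM: the limit operator has a full nest of invariant projections. -/

set_option autoImplicit false

open scoped Kronecker ComplexOrder
open Filter Topology

namespace Pool.Agent.H751R2.GN

namespace TLIM

variable {H : Type} [NormedAddCommGroup H] [InnerProductSpace ℂ H] [CompleteSpace H]

theorem card_idx_ge : ∀ n : ℕ, n ≤ Fintype.card (Idx n)
  | 0 => Nat.zero_le _
  | (n + 1) => by
    have h1 : Fintype.card (Idx (n + 1)) = Fintype.card (Idx n) * (n + 1) := by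
      have h2 : Fintype.card (Idx (n + 1)) = Fintype.card (Idx n × Fin (n + 1)) := rfl
      rw [h2, Fintype.card_prod, Fintype.card_fin]
    have h3 : 0 < Fintype.card (Idx n) := Fintype.card_pos
    rw [h1]
    exact Nat.le_mul_of_pos_left _ h3

theorem tend_comp {A : ℕ → (H →L[ℂ] H)} {A' : H →L[ℂ] H} {x : ℕ → H} {x' : H}
    (hb : ∀ n, ‖A n‖ ≤ 1) (hA : ∀ ξ, Tendsto (fun n => A n ξ) atTop (𝓝 (A' ξ)))
    (hx : Tendsto x atTop (𝓝 x')) : Tendsto (fun n => A n (x n)) atTop (𝓝 (A' x')) := by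
  have h1 : Tendsto (fun n => A n (x n) - A n x') atTop (𝓝 0) := by
    have h2 : Tendsto (fun n => ‖x n - x'‖) atTop (𝓝 0) := by
      rw [← tendsto_iff_norm_sub_tendsto_zero]
      exact hx
    refine squeeze_zero_norm (fun n => ?_) h2
    rw [← map_sub]
    calc ‖A n (x n - x')‖ ≤ ‖A n‖ * ‖x n - x'‖ := (A n).le_opNorm _
      _ ≤ 1 * ‖x n - x'‖ := by gcongr; exact hb n
      _ = ‖x n - x'‖ := one_mul _
  have h3 := h1.add (hA x')
  simpa using h3

theorem norm_proj_le {p : H →L[ℂ] H} (h1 : star p = p) (h2 : p * p = p) : ‖p‖ ≤ 1 := by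
  have h3 : ‖p‖ * ‖p‖ = ‖p‖ := by
    have h4 := CStarRing.norm_star_mul_self (x := p)
    rw [h1, h2] at h4
    exact h4.symm
  have h5 : 0 ≤ ‖p‖ := norm_nonneg p
  nlinarith

end TLIM

open TLIM in
theorem t_LIM (H : Type) [NormedAddCommGroup H] [InnerProductSpace ℂ H] [CompleteSpace H]
    (hBR1 : S_BR1 H) (hBR2 : S_BR2 H) (hBR3 : S_BR3 H) (hBR4 : S_BR4 H) (hK : S_KERP) :
    S_LIM H := by
  intro D T l N P hTM hT1 hl hN hP hNT hcl
  -- the projections
  set p : ℕ → ℝ → (H →L[ℂ] H) := fun n t =>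
    D.π (l n) (P n ⌊t * Fintype.card (Idx (l n))⌋₊) with hp
  have hps : ∀ n t, star (p n t) = p n t := by
    intro n t
    simp only [hp]
    rw [← map_star]
    congr 1
    exact (hP n _).1
  have hpi : ∀ n t, p n t * p n t = p n t := by
    intro n t
    simp only [hp]
    rw [← map_mul]
    congr 1
    exact (hP n _).2.1
  have hpn : ∀ n t, ‖p n t‖ ≤ 1 := fun n t => norm_proj_le (hps n t) (hpi n t)
  have hpM : ∀ n t, p n t ∈ D.M := fun n t => D.π_mem _ _
  have hex : ∀ t : ℝ, ∃ Q : H →L[ℂ] H, 0 ≤ t → t ≤ 1 → (Q ∈ D.M ∧ ‖Q‖ ≤ 1 ∧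
      ∀ ξ : H, Tendsto (fun n => p n t ξ) atTop (𝓝 (Q ξ))) := by
    intro t
    by_cases ht : 0 ≤ t ∧ t ≤ 1
    · have hc : CauchySeq (fun n => p n t D.Ω) := by
        refine cauchySeq_of_le_geometric (1 / 2) 1 (by norm_num) (fun n => ?_)
        rw [one_mul, dist_comm, dist_eq_norm]
        exact hcl n t ht.1 ht.2
      obtain ⟨Q, hQ⟩ := hBR2 D (fun n => p n t) (fun n => hpM n t) (fun n => hpn n t) hc
      exact ⟨Q, fun _ _ => hQ⟩
    · exact ⟨0, fun h0 h1 => absurd ⟨h0, h1⟩ ht⟩
  choose Q hQ using hex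
  -- strong convergence of the regular nilpotents
  have hNn : ∀ n, ‖D.π (l n) (N n)‖ ≤ 1 := fun n => hBR4 D (l n) (N n) (hN n).1
  have hNs : ∀ ξ : H, Tendsto (fun n => D.π (l n) (N n) ξ) atTop (𝓝 (T ξ)) := by
    obtain ⟨T', hT'M, -, hT'⟩ := hBR2 D (fun n => D.π (l n) (N n)) (fun n => D.π_mem _ _) hNn
      hNT.cauchySeq
    have h1 : T' D.Ω = T D.Ω := tendsto_nhds_unique (hT' D.Ω) hNT
    have h2 : T' - T = 0 := by
      refine ((hBR1 D (T' - T) (sub_mem hT'M hTM) T hTM).2.2) ?_
      rw [ContinuousLinearMap.sub_apply, h1, sub_self]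
    rw [sub_eq_zero] at h2
    rw [← h2]
    exact hT'
  -- card of the index sets
  have hcard : Tendsto (fun n => (Fintype.card (Idx (l n)) : ℝ)) atTop atTop := by
    refine tendsto_natCast_atTop_atTop.comp ?_
    refine tendsto_atTop_mono (fun n => ?_) tendsto_id
    exact (hl n).trans (card_idx_ge (l n))
  refine ⟨Q, ?_, ?_⟩
  · intro t ht0 ht1
    obtain ⟨hQM, hQn, hQt⟩ := hQ t ht0 ht1
    refine ⟨hQM, ?_, ?_, ?_, ?_⟩
    · -- self-adjoint
      have h1 : IsSelfAdjoint (Q t) := by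
        rw [ContinuousLinearMap.isSelfAdjoint_iff_isSymmetric]
        intro x y
        have h2 : Tendsto (fun n => inner ℂ (p n t x) y) atTop (𝓝 (inner ℂ (Q t x) y)) :=
          (hQt x).inner tendsto_const_nhds
        have h3 : Tendsto (fun n => inner ℂ x (p n t y)) atTop (𝓝 (inner ℂ x (Q t y))) :=
          tendsto_const_nhds.inner (hQt y)
        have h4 : ∀ n, inner ℂ (p n t x) y = inner ℂ x (p n t y) := by
          intro n
          conv_lhs => rw [← hps n t]
          rw [ContinuousLinearMap.star_eq_adjoint, ContinuousLinearMap.adjoint_inner_left]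
        simp only [h4] at h2
        exact tendsto_nhds_unique h2 h3
      exact h1.star_eq
    · -- idempotent
      ext ξ
      have h1 : Tendsto (fun n => p n t (p n t ξ)) atTop (𝓝 (Q t (Q t ξ))) :=
        tend_comp (fun n => hpn n t) hQt (hQt ξ)
      have h2 : ∀ n, p n t (p n t ξ) = p n t ξ := fun n => by
        have := congrArg (fun f : H →L[ℂ] H => f ξ) (hpi n t)
        simpa using this
      simp only [h2] at h1
      exact tendsto_nhds_unique h1 (hQt ξ)
    · -- trace
      have h1 : Tendsto (fun n => inner ℂ D.Ω (p n t D.Ω)) atTop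
          (𝓝 (inner ℂ D.Ω (Q t D.Ω))) := tendsto_const_nhds.inner (hQt D.Ω)
      have h2 : ∀ n, inner ℂ D.Ω (p n t D.Ω) =
          (((⌊t * Fintype.card (Idx (l n))⌋₊ : ℝ) / Fintype.card (Idx (l n)) : ℝ) : ℂ) := by
        intro n
        have h3 : inner ℂ D.Ω (p n t D.Ω) = inner ℂ (p n t D.Ω) (p n t D.Ω) := by
          conv_lhs => rw [← hpi n t]
          rw [ContinuousLinearMap.mul_apply]
          conv_lhs => rw [← hps n t]
          rw [ContinuousLinearMap.star_eq_adjoint, ContinuousLinearMap.adjoint_inner_right,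
            ← ContinuousLinearMap.star_eq_adjoint, hps]
        rw [h3, inner_self_eq_norm_sq_to_K]
        have h4 := (hBR3 D (l n) (P n ⌊t * Fintype.card (Idx (l n))⌋₊)).2
        have h5 : ⌊t * Fintype.card (Idx (l n))⌋₊ ≤ Fintype.card (Idx (l n)) := by
          refine Nat.floor_le_of_le ?_
          have : (0 : ℝ) ≤ Fintype.card (Idx (l n)) := Nat.cast_nonneg _
          nlinarith
        have h6 := (hK (Idx (l n)) (N n) (P n) (hN n).2.1 (hN n).2.2 (hP n)).1 _ h5
        rw [h6] at h4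
        have h7 : ‖p n t D.Ω‖ ^ 2 =
            (⌊t * Fintype.card (Idx (l n))⌋₊ : ℝ) / Fintype.card (Idx (l n)) := h4
        rw [← h7]
        push_cast
        rfl
      simp only [h2] at h1
      have h8 : Tendsto (fun n => (((⌊t * Fintype.card (Idx (l n))⌋₊ : ℝ) /
          Fintype.card (Idx (l n)) : ℝ) : ℂ)) atTop (𝓝 (t : ℂ)) := by
        refine (Complex.continuous_ofReal.tendsto t).comp ?_
        exact (tendsto_nat_floor_mul_div_atTop ht0).comp hcard
      exact tendsto_nhds_unique h1 h8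
    · -- invariance
      ext ξ
      have h1 : Tendsto (fun n => D.π (l n) (N n) (p n t ξ)) atTop (𝓝 (T (Q t ξ))) :=
        tend_comp hNn hNs (hQt ξ)
      have h2 : Tendsto (fun n => p n t (D.π (l n) (N n) (p n t ξ))) atTop
          (𝓝 (Q t (T (Q t ξ)))) := tend_comp (fun n => hpn n t) hQt h1
      have h3 : ∀ n, p n t (D.π (l n) (N n) (p n t ξ)) = D.π (l n) (N n) (p n t ξ) := by
        intro n
        have h4 := (hK (Idx (l n)) (N n) (P n) (hN n).2.1 (hN n).2.2 (hP n)).2.2.2
          ⌊t * Fintype.card (Idx (l n))⌋₊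
        have h5 := congrArg (fun a => D.π (l n) a ξ) h4
        simp only [map_mul, ContinuousLinearMap.mul_apply] at h5
        exact h5.symm
      simp only [h3] at h2
      have h6 := tendsto_nhds_unique h1 h2
      simpa using h6
  · -- monotone
    intro s t hs hst ht
    obtain ⟨-, -, hQs⟩ := hQ s hs (hst.trans ht)
    obtain ⟨-, -, hQt⟩ := hQ t (hs.trans hst) ht
    ext ξ
    have h1 : Tendsto (fun n => p n t (p n s ξ)) atTop (𝓝 (Q t (Q s ξ))) :=
      tend_comp (fun n => hpn n t) hQt (hQs ξ)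
    have h2 : ∀ n, p n t (p n s ξ) = p n s ξ := by
      intro n
      have h4 := (hK (Idx (l n)) (N n) (P n) (hN n).2.1 (hN n).2.2 (hP n)).2.1
        ⌊s * Fintype.card (Idx (l n))⌋₊ ⌊t * Fintype.card (Idx (l n))⌋₊
        (Nat.floor_le_floor (by gcongr))
      have h5 := congrArg (fun a => D.π (l n) a ξ) h4
      simp only [map_mul, ContinuousLinearMap.mul_apply] at h5
      exact h5
    simp only [h2] at h1
    have h6 := tendsto_nhds_unique h1 (hQs ξ)
    simpa using h6

end Pool.Agent.H751R2.GN
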