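import Pool.Agent.H751R2.GN.Stubs
import Pool.Agent.H751R2.GN.Stubs2
import Pool.Agent.H751R2.GN.Stubs3

set_option autoImplicit false

open scoped Kronecker ComplexOrder
open Filter Topology

namespace Pool.Agent.H751R2.GN

namespace TMAIN

variable {H : Type} [NormedAddCommGroup H] [InnerProductSpace ℂ H] [CompleteSpace H]

/-- nodes of the tree -/
structure Node where
  l : ℕ
  N : Matrix (Idx l) (Idx l) ℂ
  P : ℕ → Matrix (Idx l) (Idx l) ℂ
  reg : RegNil N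
  ker : ∀ i, IsKerProj N i (P i)

theorem isNilpotent_of_reg {α : Type} [Fintype α] [DecidableEq α] {N : Matrix α α ℂ}
    (h : RegNil N) : IsNilpotent N := ⟨_, h.2.1⟩

/-- the operator of a node -/
noncomputable def nf (D : HypData H) (h4 : S_BR4 H) (h7 : S_BN7 H) (z : Node) : QN D :=
  ⟨⟨D.π z.l z.N, D.π_mem _ _, h4 D z.l z.N z.reg.1⟩,
    fun μ hμ => h7 D z.l z.N (isNilpotent_of_reg z.reg) μ hμ⟩

theorem card_pos (n : ℕ) : 0 < Fintype.card (Idx n) := Fintype.card_pos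

theorem card_succ (n : ℕ) : Fintype.card (Idx (n + 1)) = Fintype.card (Idx n) * (n + 1) := by
  have : Fintype.card (Idx (n + 1)) = Fintype.card (Idx n × Fin (n + 1)) := rfl
  rw [this, Fintype.card_prod, Fintype.card_fin]

theorem card_eq (n : ℕ) : Fintype.card (Idx n) = n.factorial := by
  induction n with
  | zero =>
    have : Fintype.card (Idx 0) = Fintype.card Unit := rfl
    rw [this]; rfl
  | succ n ih => rw [card_succ, ih, Nat.factorial_succ, mul_comm]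

theorem card_ge (K L : ℕ) (h : 4 ^ (K + 1) ≤ L) : 4 ^ (K + 1) ≤ Fintype.card (Idx L) := by
  rw [card_eq]; exact h.trans (Nat.self_le_factorial L)

theorem ctr_reindex {α β : Type} [Fintype α] [Fintype β] (e : α ≃ β) {A : Matrix α α ℂ}
    (h : Ctr A) : Ctr (Matrix.reindex e e A) := by
  intro v
  have h1 : (Matrix.reindex e e A).mulVec v = (A.mulVec (v ∘ e)) ∘ e.symm := by
    funext i
    simp only [Matrix.reindex_apply, Matrix.mulVec, dotProduct, Matrix.submatrix_apply,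
      Function.comp_apply]
    exact (Equiv.sum_comp e.symm (fun j => A (e.symm i) j * v (e j))).symm ▸ by simp
  rw [h1]
  have h2 : ∀ u : α → ℂ, nsq (u ∘ e.symm) = nsq u := by
    intro u
    exact Equiv.sum_comp e.symm (fun j => ‖u j‖ ^ 2)
  rw [h2]
  refine (h _).trans (le_of_eq ?_)
  exact Equiv.sum_comp e (fun j => ‖v j‖ ^ 2)

theorem nil_reindex {α β : Type} [Fintype α] [Fintype β] [DecidableEq α] [DecidableEq β]
    (e : α ≃ β) {A : Matrix α α ℂ}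
    (h : IsNilpotent A) : IsNilpotent (Matrix.reindex e e A) := by
  obtain ⟨k, hk⟩ := h
  refine ⟨k, ?_⟩
  have := map_pow (Matrix.reindexAlgEquiv ℂ ℂ e) A k
  rw [hk, map_zero] at this
  exact this.symm

theorem nil_kron {α β : Type} [Fintype α] [Fintype β] [DecidableEq α] [DecidableEq β]
    {A : Matrix α α ℂ} (h : IsNilpotent A) : IsNilpotent (A ⊗ₖ (1 : Matrix β β ℂ)) := by
  obtain ⟨k, hk⟩ := h
  refine ⟨k, ?_⟩
  have : ∀ k : ℕ, (A ⊗ₖ (1 : Matrix β β ℂ)) ^ k = (A ^ k) ⊗ₖ (1 : Matrix β β ℂ) := by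
    intro k
    induction k with
    | zero => simp
    | succ k ih => rw [pow_succ, ih, ← Matrix.mul_kronecker_mul, ← pow_succ, one_mul]
  rw [this, hk, Matrix.zero_kronecker]

theorem dist_eq (D : HypData H) (S T : QN D) :
    dist S T = ‖S.1.1 D.Ω - T.1.1 D.Ω‖ := by
  rw [Subtype.dist_eq, ← dist_eq_norm]; rfl

end TMAIN

open TMAIN

theorem t_MAINH (H : Type) [NormedAddCommGroup H] [InnerProductSpace ℂ H] [CompleteSpace H]
    (hTREE : S_TREE2) (hBAIRE : S_BAIRE) (hBALL : S_BALL H) (hBN6 : S_BN6 H) (hBR3 : S_BR3 H)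
    (hBR4 : S_BR4 H) (hBR7 : S_BR7 H) (hBN7 : S_BN7 H) (hBN10 : S_BN10 H) (hREGD : S_REGD)
    (hH1 : S_H1 H) (hLIM : S_LIMH H) (hHYP : S_HYP H) (hAMPM : S_AMPM) : S_MAINH H := by
  intro D
  obtain ⟨hc, hs0⟩ := hBALL D
  refine ⟨hc, hs0, hBN6 D, hBAIRE _ _ (hBN6 D), ?_⟩
  -- the tree
  choose δ₀ hδ₀ hδ₀' using fun (n : ℕ) (z : Node) =>
    hHYP D z.l z.N z.P z.reg z.ker ((1 / 2) ^ n) (by positivity)
  have key := hTREE (QN D) Node (nf D hBR4 hBN7)
    (fun n => {z | n ≤ z.l ∧ 4 ^ (n + 1) ≤ Fintype.card (Idx z.l)})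
    (fun n z z' => ∀ t : ℝ, 0 ≤ t → t ≤ 1 →
      ‖D.π z'.l (z'.P ⌊t * Fintype.card (Idx z'.l)⌋₊) D.Ω -
        D.π z.l (z.P ⌊t * Fintype.card (Idx z.l)⌋₊) D.Ω‖ ≤ (1 / 2) ^ n)
    (fun n z => δ₀ n z / 2) (fun n z _ => half_pos (hδ₀ n z)) ?_ ?_
  · obtain ⟨U, hU, hlim⟩ := key
    have hres : (⋂ n, U n) ∈ residual (QN D) :=
      countable_iInter_mem.2 fun n => residual_of_dense_open (hU n).1 (hU n).2
    refine mem_of_superset hres ?_
    intro T hT
    obtain ⟨zs, hz, hS, hdist, ht⟩ := hlim T (fun n => Set.mem_iInter.1 hT n)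
    refine hLIM D T.1.1 (fun n => (zs n).l) (fun n => (zs n).N) (fun n => (zs n).P)
      T.1.2.1 T.1.2.2 (fun n => (hz n).1) (fun n => (zs n).reg) (fun n i => (zs n).ker i)
      ?_ (fun n t h0 h1 => hS n t h0 h1) ?_
    · rw [tendsto_iff_dist_tendsto_zero] at ht ⊢
      refine ht.congr fun n => ?_
      rw [dist_eq, dist_eq_norm]; rfl
    · intro n S hS hS1 hST i
      refine hδ₀' n (zs n) T.1.1 T.1.2.1 T.1.2.2 ?_ S hS hS1 hST i
      have h1 := hdist n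
      rw [dist_eq] at h1
      exact lt_of_le_of_lt h1 (half_lt_self (hδ₀ n (zs n)))
  · -- density of the first level
    intro T
    rw [Metric.mem_closure_iff]
    intro ε hε
    obtain ⟨n, b, hb, hbn, hd⟩ := hBN10 D T.1 T.2 (ε / 2) (by positivity)
    -- lift `b` to a high level
    obtain ⟨L, s, hL, hs, e, -, -, -, -, hN⟩ := hBR7 D n n 1 (4 ^ (0 + 1)) b one_pos
    set B : Matrix (Idx L) (Idx L) ℂ := Matrix.reindex e.symm e.symm
      (b ⊗ₖ (1 : Matrix (Fin 1 × Fin s) (Fin 1 × Fin s) ℂ)) with hBdef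
    have hBc : Ctr B := ctr_reindex _ ((hAMPM (Idx n) (Fin 1 × Fin s) 1 0 0 b).2.2.2.2.2 hb)
    have hBn : IsNilpotent B := nil_reindex _ (nil_kron hbn)
    have hBπ : D.π L B = D.π n b := hN b
    have hcardL : (0 : ℝ) < Fintype.card (Idx L) := by exact_mod_cast card_pos L
    obtain ⟨N, P, hreg, hker, hhs⟩ := hREGD (Idx L) B hBc hBn
      ((ε / 4) ^ 2 * Fintype.card (Idx L)) (by positivity)
    have hnorm : ‖D.π L N D.Ω - D.π L B D.Ω‖ ≤ ε / 4 := by
      have h1 := (hBR3 D L (N - B)).2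
      rw [map_sub, ContinuousLinearMap.sub_apply] at h1
      have h2 : ‖D.π L N D.Ω - D.π L B D.Ω‖ ^ 2 ≤ (ε / 4) ^ 2 := by
        rw [h1, div_le_iff₀ hcardL]; exact hhs
      exact (sq_le_sq₀ (norm_nonneg _) (by positivity)).1 h2
    refine ⟨nf D hBR4 hBN7 ⟨L, N, P, hreg, hker⟩, ⟨⟨L, N, P, hreg, hker⟩,
      ⟨Nat.zero_le _, card_ge 0 L hL⟩, rfl⟩, ?_⟩
    rw [dist_eq]
    calc ‖T.1.1 D.Ω - D.π L N D.Ω‖
        = ‖(T.1.1 D.Ω - D.π n b D.Ω) - (D.π L N D.Ω - D.π L B D.Ω)‖ := by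
          rw [hBπ]; congr 1; abel
      _ ≤ ‖T.1.1 D.Ω - D.π n b D.Ω‖ + ‖D.π L N D.Ω - D.π L B D.Ω‖ := norm_sub_le _ _
      _ < ε := by linarith
  · intro n z hz
    have hη : (0 : ℝ) < (1 / 4) ^ n / 2 := by positivity
    obtain ⟨δ, hδ, hH⟩ := hH1 D z.l z.N z.P z.reg z.ker _ hη
    refine ⟨δ, hδ, ?_⟩
    intro y hy ε hε
    obtain ⟨l', b, hb, hbn, hd⟩ := hBN10 D y.1 y.2
      (min (ε / 2) (δ - dist y (nf D hBR4 hBN7 z))) (lt_min (by positivity) (by linarith))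
    have hd1 : ‖D.π l' b D.Ω - D.π z.l z.N D.Ω‖ < δ := by
      have e1 : dist y (nf D hBR4 hBN7 z) = ‖y.1.1 D.Ω - D.π z.l z.N D.Ω‖ := dist_eq D _ _
      calc ‖D.π l' b D.Ω - D.π z.l z.N D.Ω‖
          = ‖(y.1.1 D.Ω - D.π z.l z.N D.Ω) - (y.1.1 D.Ω - D.π l' b D.Ω)‖ := by
            congr 1; abel
        _ ≤ ‖y.1.1 D.Ω - D.π z.l z.N D.Ω‖ + ‖y.1.1 D.Ω - D.π l' b D.Ω‖ := norm_sub_le _ _
        _ < δ := by
            have := lt_of_lt_of_le hd (min_le_right _ _)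
            rw [e1] at this
            linarith
    obtain ⟨L, N', P', hKL, hreg, hker, hN', hP'⟩ := hH l' b hb hbn hd1 (ε / 2) (by positivity)
      (max (n + 1) (4 ^ (n + 1 + 1)))
    refine ⟨⟨L, N', P', hreg, hker⟩, ⟨(le_max_left _ _).trans hKL,
      card_ge (n + 1) L ((le_max_right _ _).trans hKL)⟩, ?_, ?_⟩
    · intro t h0 h1
      have h2 := hP' t h0 h1
      have h3 : (2 : ℝ) / Fintype.card (Idx z.l) ≤ (1 / 4) ^ n / 2 := by
        have h4 : ((4 : ℝ) ^ (n + 1)) ≤ Fintype.card (Idx z.l) := by exact_mod_cast hz.2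
        have h5 : (0 : ℝ) < 4 ^ (n + 1) := by positivity
        calc (2 : ℝ) / Fintype.card (Idx z.l) ≤ 2 / 4 ^ (n + 1) :=
              div_le_div_of_nonneg_left (by norm_num) h5 h4
          _ = (1 / 4) ^ n / 2 := by
              rw [pow_succ, one_div, inv_pow]; field_simp; ring
      have h6 : ((1 / 2 : ℝ) ^ n) ^ 2 = (1 / 4) ^ n := by
        rw [← pow_mul, mul_comm, pow_mul]; norm_num
      refine (sq_le_sq₀ (norm_nonneg _) (by positivity)).1 ?_
      rw [h6]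
      refine h2.trans ?_
      linarith
    · rw [dist_eq]
      calc ‖D.π L N' D.Ω - y.1.1 D.Ω‖
          = ‖(D.π L N' D.Ω - D.π l' b D.Ω) - (y.1.1 D.Ω - D.π l' b D.Ω)‖ := by
            congr 1; abel
        _ ≤ ‖D.π L N' D.Ω - D.π l' b D.Ω‖ + ‖y.1.1 D.Ω - D.π l' b D.Ω‖ := norm_sub_le _ _
        _ < ε := by
            have := lt_of_lt_of_le hd (min_le_left _ _)
            linarith

end Pool.Agent.H751R2.GN
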